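import Pool.Agent.Helper886.PA.Main

/-! # MP_27fe6f_al, Q1: proalgebraic rigidity implies profinite rigidity

`ℂ` is an ultraproduct of the fields `F_p^alg`, and every finite-dimensional complex representation
of a finitely generated group is an ultraproduct of representations over the fields `F_p^alg`.
Those have finite image, so they extend to the profinite completion. Hence the coordinate ring of
the proalgebraic completion is an algebra of functions on the profinite completion which can be
described without mentioning the dense subgroup, and the profinite completion determines the
proalgebraic completion. -/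

namespace Pool.Agent.Results.MP_27fe6f_al.ProfiniteDeterminesProalgebraic

open Pool.Agent.Helper886.PA

/-- (1) Finitely generated groups have proalgebraic completions. (2) Finitely generated groups with
isomorphic profinite completions have isomorphic proalgebraic completions. (3) Every finitely
generated residually finite group that is proalgebraically rigid is profinitely rigid. -/
theorem result :
    (∀ (Γ : Type) [Group Γ] [Group.FG Γ],
      ∃ (H : Type) (_ : CommRing H) (_ : HopfAlgebra ℂ H) (i : Γ → Pt H),
        IsProalgebraicCompletion Γ H i) ∧
    (∀ (Γ Λ : Type) [Group Γ] [Group Λ] [Group.FG Γ] [Group.FG Λ],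
      ProfinitelyIsomorphic Γ Λ → ProalgebraicallyIsomorphic Γ Λ) ∧
    (∀ (Λ : Type) [Group Λ] [Group.FG Λ] [Group.ResiduallyFinite Λ],
      ProalgebraicallyRigid Λ → ProfinitelyRigid Λ) :=
  ⟨fun Γ _ _ => exists_completion Γ, fun Γ Λ _ _ _ _ h => main Γ Λ h,
    fun Λ _ _ _ h => rigid Λ h⟩

end Pool.Agent.Results.MP_27fe6f_al.ProfiniteDeterminesProalgebraic
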